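import Pool.Agent.Helper52.EK.Defs
import Pool.Agent.Helper39.Area.Exterior
import Pool.Agent.Helper24.Br.Inj
set_option autoImplicit false
open Complex MeasureTheory Metric Set
open scoped Real ComplexConjugate

/-! Project EK, module E6e: transfer of the moment bound to the class Σ. -/

namespace Pool.Agent.Helper32.EK

open Pool.Agent.Helper39.Area Pool.Agent.Helper52.EK
open Pool.Agent.Helper24.Br (deriv_ne_of_inj)

/-- E6e: the class Σ -/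
theorem final {κ : ℝ} (hM : ∀ p : ℝ, κ ≤ p → ∃ C : ℝ, ∀ (β : ℂ → ℂ) (r : ℝ), Ext β → 0 < r →
      r < 1 → (2 * π)⁻¹ * (∫ α in (0:ℝ)..(2 * π), ‖N β (r * Complex.exp (α * I))‖ ^ (-p)) ≤
        C * (1 - r ^ 2) ^ (-(p - 1))) :
    ∀ p : ℝ, κ ≤ p → ∃ C : ℝ, ∀ ψ : ℂ → ℂ, DifferentiableOn ℂ ψ {z : ℂ | 1 < ‖z‖} →
      InjOn ψ {z : ℂ | 1 < ‖z‖} →
      (∃ b : ℂ, Filter.Tendsto (fun z => ψ z - z) (Bornology.cobounded ℂ) (nhds b)) →
      ∀ R : ℝ, 1 < R →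
      (2 * π)⁻¹ * (∫ θ in (0:ℝ)..(2 * π), ‖deriv ψ (R * Complex.exp (θ * I))‖ ^ (-p)) ≤
        C * (R ^ 2 / (R ^ 2 - 1)) ^ (p - 1) := by
  intro p hp
  obtain ⟨C, hC⟩ := hM p hp
  refine ⟨C, ?_⟩
  rintro ψ hψ hinj ⟨b, hb⟩ R hR
  have hR0 : 0 < R := by linarith
  have hne : ∀ z : ℂ, 1 < ‖z‖ → deriv ψ z ≠ 0 := fun z hz =>
    deriv_ne_of_inj isOpen_ext hψ hinj hz
  have hexp : ∀ z : ℂ, 1 < ‖z‖ → Complex.exp ((fun z => Complex.log (deriv ψ z)) z) =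
      deriv ψ z := fun z hz => Complex.exp_log (hne z hz)
  obtain ⟨hE, hex⟩ := ext_data hψ hinj hb hexp
  have hr0 : 0 < R⁻¹ := by positivity
  have hr1 : R⁻¹ < 1 := inv_lt_one_of_one_lt₀ hR
  have hmain := hC (toDisc b (fun z => ψ z - z)) R⁻¹ hE hr0 hr1
  obtain ⟨k, hk⟩ : ∃ k : ℝ → ℝ, k = fun (α : ℝ) =>
    ‖N (toDisc b (fun z => ψ z - z)) (((R⁻¹ : ℝ) : ℂ) * Complex.exp (α * I))‖ ^ (-p) := ⟨_, rfl⟩
  have h1 : ∀ θ : ℝ, ‖deriv ψ (R * Complex.exp (θ * I))‖ ^ (-p) = k (-θ) := by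
    intro θ
    have hne0 : ((R⁻¹ : ℝ) : ℂ) * Complex.exp (((-θ : ℝ) : ℂ) * I) ≠ 0 := by
      apply mul_ne_zero _ (Complex.exp_ne_zero _)
      exact_mod_cast inv_ne_zero hR0.ne'
    have hmem : ((R⁻¹ : ℝ) : ℂ) * Complex.exp (((-θ : ℝ) : ℂ) * I) ∈ ball (0:ℂ) 1 := by
      rw [mem_ball_zero_iff, norm_mul, Complex.norm_exp_ofReal_mul_I, mul_one, Complex.norm_real,
        Real.norm_of_nonneg hr0.le]
      exact hr1
    have h2 : (((R⁻¹ : ℝ) : ℂ) * Complex.exp (((-θ : ℝ) : ℂ) * I))⁻¹ =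
        (R : ℂ) * Complex.exp ((θ : ℂ) * I) := by
      rw [mul_inv, ← Complex.exp_neg]
      push_cast
      rw [inv_inv]
      congr 2
      ring
    have h3 := hex _ hmem
    simp only [toDisc] at h3
    rw [if_neg hne0, h2, hexp] at h3
    · simp only [hk, N]
      rw [h3]
    · rw [norm_mul, Complex.norm_exp_ofReal_mul_I, mul_one, Complex.norm_real,
        Real.norm_of_nonneg hR0.le]
      exact hR
  simp_rw [h1]
  rw [intervalIntegral.integral_comp_neg (fun θ => k θ)]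
  have hper : Function.Periodic k (2 * π) := by
    intro θ
    simp only [hk]
    have : Complex.exp (((θ + 2 * π : ℝ) : ℂ) * I) = Complex.exp ((θ : ℂ) * I) := by
      push_cast
      rw [add_mul, Complex.exp_add, Complex.exp_two_pi_mul_I, mul_one]
    rw [this]
  have h2 := hper.intervalIntegral_add_eq (-(2 * π)) 0
  have e1 : -(2 * π) + 2 * π = (0:ℝ) := by ring
  have e2 : (0:ℝ) + 2 * π = 2 * π := by ring
  rw [e1, e2] at h2
  rw [neg_zero, h2]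
  have hRR : 0 < R ^ 2 - 1 := by nlinarith
  have hx : (1 - R⁻¹ ^ 2) ^ (-(p - 1)) = (R ^ 2 / (R ^ 2 - 1)) ^ (p - 1) := by
    have h3 : 1 - R⁻¹ ^ 2 = (R ^ 2 / (R ^ 2 - 1))⁻¹ := by
      rw [inv_pow]
      field_simp
    rw [h3, Real.inv_rpow (by positivity), Real.rpow_neg (by positivity), inv_inv]
  rw [hx] at hmain
  rw [hk]
  exact hmain

end Pool.Agent.Helper32.EK
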